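import Pool.Agent.Helper83.BB.Main
import Pool.Agent.Helper83.BB.Rect

set_option autoImplicit false

namespace Pool.Agent.Results.MP_61fb38_lc.LocallyBounded

/-- Let `E` on `X` and `F` on `Y` be Borel-bounded relations, `X` and `Y` Polish. Every Borel map
`f` from `X × Y` to Baire space whose coordinates `f (x, y) n` are, for each `n`, locally bounded
in one of the two variables (which may depend on `n`) when the other one is fixed, is eventually
dominated by a Borel homomorphism from `E × F` to `E₀(ℕ)`. -/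
theorem result :
    ∀ (X Y : Type) [TopologicalSpace X] [PolishSpace X] [MeasurableSpace X] [BorelSpace X]
      [TopologicalSpace Y] [PolishSpace Y] [MeasurableSpace Y] [BorelSpace Y]
      (E : X → X → Prop) (F : Y → Y → Prop),
      (∀ f : X → ℕ → ℕ, Measurable f → ∃ g : X → ℕ → ℕ, Measurable g ∧
          (∀ x : X, ∀ᶠ n in Filter.atTop, f x n ≤ g x n) ∧
          (∀ x y : X, E x y → ∀ᶠ n in Filter.atTop, g x n = g y n)) →
      (∀ f : Y → ℕ → ℕ, Measurable f → ∃ g : Y → ℕ → ℕ, Measurable g ∧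
          (∀ y : Y, ∀ᶠ n in Filter.atTop, f y n ≤ g y n) ∧
          (∀ y z : Y, F y z → ∀ᶠ n in Filter.atTop, g y n = g z n)) →
      (∀ f : X × Y → ℕ → ℕ, Measurable f →
        (∀ n : ℕ,
          (∀ (x : X) (y : Y), ∃ U ∈ nhds y, ∃ k : ℕ, ∀ z ∈ U, f (x, z) n ≤ k) ∨
          (∀ (x : X) (y : Y), ∃ U ∈ nhds x, ∃ k : ℕ, ∀ z ∈ U, f (z, y) n ≤ k)) →
        ∃ g : X × Y → ℕ → ℕ, Measurable g ∧
          (∀ p : X × Y, ∀ᶠ n in Filter.atTop, f p n ≤ g p n) ∧
          (∀ p q : X × Y, (E p.1 q.1 ∧ F p.2 q.2) →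
            ∀ᶠ n in Filter.atTop, g p n = g q n)) := by
  intro X Y _ _ _ _ _ _ _ _ E F hE hF f hf hloc
  rcases isEmpty_or_nonempty Y with hY | hY
  · exact ⟨fun _ _ => 0, measurable_const, fun p => (hY.false p.2).elim,
      fun p => (hY.false p.2).elim⟩
  rcases isEmpty_or_nonempty X with hX | hX
  · exact ⟨fun _ _ => 0, measurable_const, fun p => (hX.false p.1).elim,
      fun p => (hX.false p.1).elim⟩
  refine Pool.Agent.Helper83.BB.main E F hE hF f fun n => ?_
  rcases hloc n with h | h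
  · exact Pool.Agent.Helper83.BB.rect_cover (fun p => f p n) ((measurable_pi_iff.1 hf) n) h
  · obtain ⟨A, B, hA, hB, hc, hb⟩ := Pool.Agent.Helper83.BB.rect_cover
      (fun p : Y × X => f (p.2, p.1) n)
      (((measurable_pi_iff.1 hf) n).comp (measurable_snd.prodMk measurable_fst))
      fun y x => h x y
    refine ⟨B, A, hB, hA, fun p => ?_, fun j => ?_⟩
    · obtain ⟨j, h1, h2⟩ := hc (p.2, p.1)
      exact ⟨j, h2, h1⟩
    · obtain ⟨k, hk⟩ := hb j
      exact ⟨k, fun p h1 h2 => hk (p.2, p.1) h2 h1⟩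

end Pool.Agent.Results.MP_61fb38_lc.LocallyBounded
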